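import Pool.Agent.W174.EC.Tree1

/-!
# Project EC, part D5: structure of the Farey trees
-/

set_option autoImplicit false

namespace Pool.Agent.W174.EC

open Finset Filter
open Pool.Agent.W78.GA
open Pool.Agent.W78.EC

section tree

variable {A : Type}

lemma lv_length (T : Tr A) : ∀ a b : Gi, (lv T a b).length = T.size + 1 := by
  induction T with
  | leaf => intro a b; rfl
  | node x l r ihl ihr =>
    intro a b
    show (lv l a (a + b) ++ lv r (a + b) b).length = l.size + r.size + 1 + 1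
    rw [List.length_append, ihl, ihr]
    omega

/-- coordinates of the leaf edges -/
def co : Tr A → ℕ × ℕ → ℕ × ℕ → List ((ℕ × ℕ) × (ℕ × ℕ))
  | .leaf, x, y => [(x, y)]
  | .node _ l r, x, y => co l x (x + y) ++ co r (x + y) y

lemma lv_co (T : Tr A) (e : Gi × Gi) : ∀ x y : ℕ × ℕ, lv T (evx e x) (evx e y) =
    (co T x y).map (fun q => (evx e q.1, evx e q.2)) := by
  induction T with
  | leaf => intro x y; rfl
  | node z l r ihl ihr =>
    intro x y
    show lv l (evx e x) (evx e x + evx e y) ++ lv r (evx e x + evx e y) (evx e y) =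
      (co l x (x + y) ++ co r (x + y) y).map _
    rw [List.map_append, ← ihl, ← ihr, evx_add]

lemma lv_co' (T : Tr A) (e : Gi × Gi) : lv T e.1 e.2 =
    (co T (1, 0) (0, 1)).map (fun q => (evx e q.1, evx e q.2)) := by
  rw [← lv_co T e (1, 0) (0, 1), evx_one, evx_two]

/-- the determinant of the coordinates is one -/
lemma co_det (T : Tr A) : ∀ x y : ℕ × ℕ, (x.1 : ℤ) * y.2 - x.2 * y.1 = 1 →
    ∀ q ∈ co T x y, (q.1.1 : ℤ) * q.2.2 - q.1.2 * q.2.1 = 1 := by
  induction T with
  | leaf =>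
    intro x y h q hq
    rw [show co (Tr.leaf : Tr A) x y = [(x, y)] from rfl, List.mem_singleton] at hq
    rw [hq]
    exact h
  | node z l r ihl ihr =>
    intro x y h q hq
    rw [show co (Tr.node z l r) x y = co l x (x + y) ++ co r (x + y) y from rfl,
      List.mem_append] at hq
    rcases hq with hq | hq
    · refine ihl x (x + y) ?_ q hq
      rw [Prod.fst_add, Prod.snd_add]
      push_cast
      linarith
    · refine ihr (x + y) y ?_ q hq
      rw [Prod.fst_add, Prod.snd_add]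
      push_cast
      linarith

/-- the leaf edges lie in the closed cone over the root edge -/
lemma lv_cone (T : Tr A) (a b : Gi) (h : dt a b = 1) (f : Gi × Gi) (hf : f ∈ lv T a b) :
    dt f.1 f.2 = 1 ∧ 0 ≤ dt a f.1 ∧ 0 ≤ dt f.1 b ∧ 0 ≤ dt a f.2 ∧ 0 ≤ dt f.2 b := by
  have h1 := lv_co' T (a, b)
  simp only at h1
  rw [h1, List.mem_map] at hf
  obtain ⟨q, hq, rfl⟩ := hf
  have h2 := co_det T (1, 0) (0, 1) (by norm_num) q hq
  rw [dtZ] at h
  simp only [dtZ, evx_re, evx_im]
  have c1 : (0 : ℤ) ≤ q.1.1 := Int.natCast_nonneg _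
  have c2 : (0 : ℤ) ≤ q.1.2 := Int.natCast_nonneg _
  have c3 : (0 : ℤ) ≤ q.2.1 := Int.natCast_nonneg _
  have c4 : (0 : ℤ) ≤ q.2.2 := Int.natCast_nonneg _
  refine ⟨?_, ?_, ?_, ?_, ?_⟩
  · linear_combination ((q.1.1 : ℤ) * q.2.2 - q.1.2 * q.2.1) * h + h2
  · have : a.re * (q.1.1 * a.im + q.1.2 * b.im) - a.im * (q.1.1 * a.re + q.1.2 * b.re) = q.1.2 := by
      linear_combination (q.1.2 : ℤ) * h
    rw [this]; exact c2
  · have : (q.1.1 * a.re + q.1.2 * b.re) * b.im - (q.1.1 * a.im + q.1.2 * b.im) * b.re = q.1.1 := by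
      linear_combination (q.1.1 : ℤ) * h
    rw [this]; exact c1
  · have : a.re * (q.2.1 * a.im + q.2.2 * b.im) - a.im * (q.2.1 * a.re + q.2.2 * b.re) = q.2.2 := by
      linear_combination (q.2.2 : ℤ) * h
    rw [this]; exact c4
  · have : (q.2.1 * a.re + q.2.2 * b.re) * b.im - (q.2.1 * a.im + q.2.2 * b.im) * b.re = q.2.1 := by
      linear_combination (q.2.1 : ℤ) * h
    rw [this]; exact c3

lemma lv_nodup (T : Tr A) : ∀ a b : Gi, dt a b = 1 → (lv T a b).Nodup := by
  induction T with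
  | leaf => intro a b _; exact List.nodup_singleton _
  | node z l r ihl ihr =>
    intro a b h
    have hl : dt a (a + b) = 1 := by
      rw [dtZ] at h ⊢
      rw [re_add', im_add']
      linarith
    have hr : dt (a + b) b = 1 := by
      rw [dtZ] at h ⊢
      rw [re_add', im_add']
      linarith
    show (lv l a (a + b) ++ lv r (a + b) b).Nodup
    rw [List.nodup_append']
    refine ⟨ihl _ _ hl, ihr _ _ hr, ?_⟩
    rw [List.disjoint_left]
    intro f hf1 hf2
    obtain ⟨h1, -, h2, -, h3⟩ := lv_cone l a (a + b) hl f hf1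
    obtain ⟨-, h4, h4', h5, h5'⟩ := lv_cone r (a + b) b hr f hf2
    have e1 : dt f.1 (a + b) = 0 := by
      have : dt f.1 (a + b) = -dt (a + b) f.1 := by rw [dtZ, dtZ]; ring
      linarith
    have e2 : dt f.2 (a + b) = 0 := by
      have : dt f.2 (a + b) = -dt (a + b) f.2 := by rw [dtZ, dtZ]; ring
      linarith
    -- `f.1` and `f.2` are parallel to `a + b`
    have e3 : (dt f.1 f.2) * (a + b).re = 0 := by
      rw [dtZ] at e1 e2 ⊢
      linear_combination f.2.re * (-1 : ℤ) * e1 * (-1) - f.1.re * e2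
    have e4 : (dt f.1 f.2) * (a + b).im = 0 := by
      rw [dtZ] at e1 e2 ⊢
      linear_combination f.2.im * e1 - f.1.im * e2
    rw [h1, one_mul] at e3 e4
    rw [dtZ, e3, e4] at hr
    simp at hr

/-- grafting -/
def graft : Tr A → List (Tr A) → Tr A
  | .leaf, L => L.headD .leaf
  | .node x l r, L => .node x (graft l (L.take (l.size + 1))) (graft r (L.drop (l.size + 1)))

lemma TT_graft (lab : Gi → A) (Y' X : ℝ) (hX : Y' ≤ X) : ∀ a b, V a b →
    TT lab X (a, b) = graft (TT lab Y' (a, b)) ((lv (TT lab Y' (a, b)) a b).map (TT lab X)) := by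
  refine ind Y' (fun a b h h1 => ?_) fun a b h h1 ih1 ih2 => ?_
  · rw [TT_leaf lab Y' a b h1]
    rfl
  · rw [TT_node lab Y' a b h h1, TT_node lab X a b h (h1.trans hX)]
    have e : lv (Tr.node (lab (a + b)) (TT lab Y' (a, a + b)) (TT lab Y' (a + b, b))) a b =
        lv (TT lab Y' (a, a + b)) a (a + b) ++ lv (TT lab Y' (a + b, b)) (a + b) b := rfl
    rw [e, List.map_append]
    have e2 : ∀ L, graft (Tr.node (lab (a + b)) (TT lab Y' (a, a + b)) (TT lab Y' (a + b, b))) L =
        .node (lab (a + b)) (graft (TT lab Y' (a, a + b)) (L.take ((TT lab Y' (a, a + b)).size + 1)))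
          (graft (TT lab Y' (a + b, b)) (L.drop ((TT lab Y' (a, a + b)).size + 1))) := fun L => rfl
    rw [e2]
    have e3 : ((lv (TT lab Y' (a, a + b)) a (a + b)).map (TT lab X)).length =
        (TT lab Y' (a, a + b)).size + 1 := by
      rw [List.length_map, lv_length]
    rw [List.take_left' e3, List.drop_left' e3, ← ih1, ← ih2]

/-! ### Descent -/

lemma leaves_edge (lab : Gi → A) (Y' : ℝ) : ∀ a b, V a b → (nm a : ℝ) ≤ Y' → (nm b : ℝ) ≤ Y' →
    ∀ f ∈ lv (TT lab Y' (a, b)) a b, f ∈ edge 0 1 Y' := by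
  refine ind Y' (fun a b h h1 ha hb f hf => ?_) fun a b h h1 ih1 ih2 ha hb f hf => ?_
  · rw [TT_leaf lab Y' a b h1, show lv (Tr.leaf : Tr A) a b = [(a, b)] from rfl,
      List.mem_singleton] at hf
    rw [hf]
    exact edge_of_V h ha hb h1
  · rw [TT_node lab Y' a b h h1,
      show lv (Tr.node (lab (a + b)) (TT lab Y' (a, a + b)) (TT lab Y' (a + b, b))) a b =
        lv (TT lab Y' (a, a + b)) a (a + b) ++ lv (TT lab Y' (a + b, b)) (a + b) b from rfl,
      List.mem_append] at hf
    rcases hf with hf | hf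
    · exact ih1 ha h1 f hf
    · exact ih2 h1 hb f hf

/-- the parent on the right -/
lemma parent_right {c d : Gi} (h : V c d) (hlt : nm c < nm d) : V c (d - c) ∧
    nm (d - c) + nm c ≤ nm d := by
  have e1 := ipdt c d
  rw [h.1] at e1
  obtain ⟨p1, p2⟩ := pos_of_dt h.1
  have p1' : (1 : ℤ) ≤ nm c := by exact_mod_cast p1
  have hlt' : (nm c : ℤ) + 1 ≤ nm d := by exact_mod_cast hlt
  have h0 := h.2
  have hge : (nm c : ℤ) ≤ ip c d := by
    by_contra hc
    push Not at hc
    nlinarith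
  have hre : (d - c).re = d.re - c.re := rfl
  have him : (d - c).im = d.im - c.im := rfl
  have hip : ip c (d - c) = ip c d - nm c := by
    rw [ipZ, ipZ, nmZ, hre, him]
    ring
  have hdt : dt c (d - c) = dt c d := by
    rw [dtZ, dtZ, hre, him]
    ring
  have hnm : (nm (d - c) : ℤ) = nm d + nm c - 2 * ip c d := by
    rw [nmZ, nmZ, nmZ, ipZ, hre, him]
    ring
  refine ⟨⟨by rw [hdt]; exact h.1, by rw [hip]; linarith⟩, ?_⟩
  have : ((nm (d - c) + nm c : ℕ) : ℤ) ≤ nm d := by
    push_cast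
    rw [hnm]
    linarith
  exact_mod_cast this

/-- the parent on the left -/
lemma parent_left {c d : Gi} (h : V c d) (hlt : nm d < nm c) : V (c - d) d ∧
    nm (c - d) + nm d ≤ nm c := by
  have e1 := ipdt c d
  rw [h.1] at e1
  obtain ⟨p1, p2⟩ := pos_of_dt h.1
  have p1' : (1 : ℤ) ≤ nm d := by exact_mod_cast p2
  have hlt' : (nm d : ℤ) + 1 ≤ nm c := by exact_mod_cast hlt
  have h0 := h.2
  have hge : (nm d : ℤ) ≤ ip c d := by
    by_contra hc
    push Not at hc
    nlinarith
  have hre : (c - d).re = c.re - d.re := rfl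
  have him : (c - d).im = c.im - d.im := rfl
  have hip : ip (c - d) d = ip c d - nm d := by
    rw [ipZ, ipZ, nmZ, hre, him]
    ring
  have hdt : dt (c - d) d = dt c d := by
    rw [dtZ, dtZ, hre, him]
    ring
  have hnm : (nm (c - d) : ℤ) = nm c + nm d - 2 * ip c d := by
    rw [nmZ, nmZ, nmZ, ipZ, hre, him]
    ring
  refine ⟨⟨by rw [hdt]; exact h.1, by rw [hip]; linarith⟩, ?_⟩
  have : ((nm (c - d) + nm d : ℕ) : ℤ) ≤ nm c := by
    push_cast
    rw [hnm]
    linarith
  exact_mod_cast this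

lemma eq_norm {c d : Gi} (h : V c d) (heq : nm c = nm d) : nm c = 1 := by
  have e1 := ipdt c d
  rw [h.1, ← heq] at e1
  obtain ⟨p1, -⟩ := pos_of_dt h.1
  have p1' : (1 : ℤ) ≤ nm c := by exact_mod_cast p1
  have h0 := h.2
  have : (nm c : ℤ) = 1 := by
    have h2 : ip c d < nm c := by
      by_contra hc
      push Not at hc
      nlinarith
    nlinarith
  exact_mod_cast this

lemma descent (lab : Gi → A) (Y Y' : ℝ) (hY : 2 ≤ Y) : ∀ n : ℕ, ∀ c d : Gi, nm c + nm d ≤ n →
    V c d → Y < (nm (c + d) : ℝ) → (nm c : ℝ) ≤ Y' → (nm d : ℝ) ≤ Y' →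
    ∃ e ∈ edge 0 1 Y, ∀ f ∈ lv (TT lab Y' (c, d)) c d, f ∈ lv (TT lab Y' e) e.1 e.2 := by
  intro n
  induction n with
  | zero =>
    intro c d hn h
    have := (pos_of_dt h.1).1
    omega
  | succ n ih =>
    intro c d hn h hs hc hd
    by_cases hcd : (nm c : ℝ) ≤ Y ∧ (nm d : ℝ) ≤ Y
    · exact ⟨(c, d), edge_of_V h hcd.1 hcd.2 hs, fun f hf => hf⟩
    · obtain ⟨p1, p2⟩ := pos_of_dt h.1
      rcases lt_trichotomy (nm c) (nm d) with hlt | heq | hlt
      · obtain ⟨hV, hle⟩ := parent_right h hlt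
        have hdY : Y < (nm d : ℝ) := by
          by_contra hcon
          push Not at hcon
          have : (nm c : ℝ) ≤ nm d := by exact_mod_cast hlt.le
          exact hcd ⟨this.trans hcon, hcon⟩
        have hadd : c + (d - c) = d := by abel
        have hdc : (nm (d - c) : ℝ) ≤ Y' := by
          have : (nm (d - c) : ℝ) ≤ nm d := by exact_mod_cast (by omega : nm (d - c) ≤ nm d)
          linarith
        obtain ⟨e, he, hsub⟩ := ih c (d - c) (by omega) hV (by rw [hadd]; exact hdY) hc hdc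
        refine ⟨e, he, fun f hf => hsub f ?_⟩
        rw [TT_node lab Y' c (d - c) hV (by rw [hadd]; exact hd)]
        show f ∈ lv (TT lab Y' (c, c + (d - c))) c (c + (d - c)) ++ _
        rw [hadd]
        exact List.mem_append_left _ hf
      · exfalso
        have := eq_norm h heq
        apply hcd
        rw [← heq, this]
        constructor <;> (push_cast; linarith)
      · obtain ⟨hV, hle⟩ := parent_left h hlt
        have hcY : Y < (nm c : ℝ) := by
          by_contra hcon
          push Not at hcon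
          have : (nm d : ℝ) ≤ nm c := by exact_mod_cast hlt.le
          exact hcd ⟨hcon, this.trans hcon⟩
        have hadd : (c - d) + d = c := by abel
        have hdc : (nm (c - d) : ℝ) ≤ Y' := by
          have : (nm (c - d) : ℝ) ≤ nm c := by exact_mod_cast (by omega : nm (c - d) ≤ nm c)
          linarith
        obtain ⟨e, he, hsub⟩ := ih (c - d) d (by omega) hV (by rw [hadd]; exact hcY) hdc hd
        refine ⟨e, he, fun f hf => hsub f ?_⟩
        rw [TT_node lab Y' (c - d) d hV (by rw [hadd]; exact hc)]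
        show f ∈ _ ++ lv (TT lab Y' ((c - d) + d, d)) ((c - d) + d) d
        rw [hadd]
        exact List.mem_append_right _ hf

/-- two edges with a common interior vector are equal -/
lemma uniq {Y : ℝ} {a b a' b' : Gi} (h : (a, b) ∈ edge 0 1 Y) (h' : (a', b') ∈ edge 0 1 Y)
    (w : Gi) (h1 : 0 < dt a w) (h2 : 0 < dt w b) (h3 : 0 < dt a' w) (h4 : 0 < dt w b') :
    (a, b) = (a', b') := by
  obtain ⟨hV, ha, hb, hs⟩ := V_of_edge h
  obtain ⟨hV', ha', hb', hs'⟩ := V_of_edge h'
  have d1 := hV.1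
  have d2 := hV'.1
  rw [dtZ] at d1 d2
  -- no short vector in the open cones
  have key : ∀ {a b z : Gi}, V a b → Y < (nm (a + b) : ℝ) → (nm z : ℝ) ≤ Y → 0 < dt a z →
      0 < dt z b → False := by
    intro a b z hV hs hz h1 h2
    have hd := hV.1
    rw [dtZ] at hd
    have := hV.comb (dt z b) (dt a z) h2 h1 z (by rw [dtZ, dtZ]; linear_combination (-z.re) * hd)
      (by rw [dtZ, dtZ]; linear_combination (-z.im) * hd)
    have : (nm (a + b) : ℝ) ≤ nm z := by exact_mod_cast this
    linarith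
  obtain ⟨s, hs0⟩ : ∃ s, s = dt a' b := ⟨_, rfl⟩
  obtain ⟨t, ht0⟩ : ∃ t, t = dt a a' := ⟨_, rfl⟩
  obtain ⟨s', hs0'⟩ : ∃ s', s' = dt b' b := ⟨_, rfl⟩
  obtain ⟨t', ht0'⟩ : ∃ t', t' = dt a b' := ⟨_, rfl⟩
  have k1 : ¬ (0 < t ∧ 0 < s) := by
    rintro ⟨q1, q2⟩
    exact key hV hs ha' (by rw [← ht0]; exact q1) (by rw [← hs0]; exact q2)
  have k2 : ¬ (0 < t' ∧ 0 < s') := by
    rintro ⟨q1, q2⟩
    exact key hV hs hb' (by rw [← ht0']; exact q1) (by rw [← hs0']; exact q2)
  have e1 : dt a' a = -t := by rw [ht0, dtZ, dtZ]; ring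
  have e2 : dt b b' = -s' := by rw [hs0', dtZ, dtZ]; ring
  have k3 : ¬ (0 < -t ∧ 0 < t') := by
    rintro ⟨q1, q2⟩
    exact key hV' hs' ha (by rw [e1]; exact q1) (by rw [← ht0']; exact q2)
  have k4 : ¬ (0 < s ∧ 0 < -s') := by
    rintro ⟨q1, q2⟩
    exact key hV' hs' hb (by rw [← hs0]; exact q1) (by rw [e2]; exact q2)
  have hdet : s * t' - s' * t = 1 := by
    rw [hs0, ht0, hs0', ht0', dtZ, dtZ, dtZ, dtZ]
    linear_combination d2 + (a'.re * b'.im - a'.im * b'.re) * d1
  obtain ⟨al, hal⟩ : ∃ al, al = dt w b := ⟨_, rfl⟩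
  obtain ⟨be, hbe⟩ : ∃ be, be = dt a w := ⟨_, rfl⟩
  obtain ⟨al', hal'⟩ : ∃ al', al' = dt w b' := ⟨_, rfl⟩
  obtain ⟨be', hbe'⟩ : ∃ be', be' = dt a' w := ⟨_, rfl⟩
  have f1 : al = al' * s + be' * s' := by
    rw [hal, hal', hbe', hs0, hs0', dtZ, dtZ, dtZ, dtZ, dtZ]
    linear_combination -(w.re * b.im - w.im * b.re) * d2
  have f2 : be = al' * t + be' * t' := by
    rw [hbe, hal', hbe', ht0, ht0', dtZ, dtZ, dtZ, dtZ, dtZ]
    linear_combination -(a.re * w.im - a.im * w.re) * d2
  have f3 : al' = al * t' - be * s' := by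
    rw [hal, hal', hbe, ht0', hs0', dtZ, dtZ, dtZ, dtZ, dtZ]
    linear_combination -(w.re * b'.im - w.im * b'.re) * d1
  rw [← hbe] at h1
  rw [← hal] at h2
  rw [← hbe'] at h3
  rw [← hal'] at h4
  have hcase : s = 1 ∧ t = 0 ∧ s' = 0 ∧ t' = 1 := by
    rcases lt_or_ge 0 s with c1 | c1
    · have c2 : t ≤ 0 := by
        by_contra hc
        push Not at hc
        exact k1 ⟨hc, c1⟩
      have c3 : 0 < t' := by
        by_contra hc
        push Not at hc
        nlinarith
      have c4 : t = 0 := by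
        by_contra hc
        exact k3 ⟨by omega, c3⟩
      have c5 : s' ≤ 0 := by
        by_contra hc
        push Not at hc
        exact k2 ⟨c3, hc⟩
      have c6 : s' = 0 := by
        by_contra hc
        exact k4 ⟨c1, by omega⟩
      rw [c4, c6] at hdet
      have c7 : s * t' = 1 := by linarith
      have c8 : s = 1 := by nlinarith
      rw [c8] at c7
      exact ⟨c8, c4, c6, by linarith⟩
    · exfalso
      have c2 : 0 < s' := by
        by_contra hc
        push Not at hc
        nlinarith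
      have c3 : t' ≤ 0 := by
        by_contra hc
        push Not at hc
        exact k2 ⟨hc, c2⟩
      nlinarith
  obtain ⟨q1, q2, q3, q4⟩ := hcase
  have g1 : a' = a := by
    rw [q1, dtZ] at hs0
    rw [q2, dtZ] at ht0
    apply QuadraticAlgebra.ext
    · linear_combination a'.re * (-1) * d1 - a.re * hs0 - b.re * ht0
    · linear_combination a'.im * (-1) * d1 - a.im * hs0 - b.im * ht0
  have g2 : b' = b := by
    rw [q3, dtZ] at hs0'
    rw [q4, dtZ] at ht0'
    apply QuadraticAlgebra.ext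
    · linear_combination b'.re * (-1) * d1 - a.re * hs0' - b.re * ht0'
    · linear_combination b'.im * (-1) * d1 - a.im * hs0' - b.im * ht0'
  rw [g1, g2]

end tree

end Pool.Agent.W174.EC
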